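import Pool.Agent.Helper95.BG.Goals

/-!
# Boolean grammars: locality of the languages of a grammar
-/

namespace Pool.Agent.Helper7.BG.PkSTR

open Pool.Agent.Helper95.BG

section

variable {T : Type} (G : BooleanGrammar T)

theorem str_nil (S : G.N → Language T) : G.str S [] = 1 := by
  simp [BooleanGrammar.str]

theorem str_cons (S : G.N → Language T) (s : T ⊕ G.N) (τ : List (T ⊕ G.N)) :
    G.str S (s :: τ) = G.str S [s] * G.str S τ := by
  simp [BooleanGrammar.str]

theorem str_inr (S : G.N → Language T) (A : G.N) : G.str S [Sum.inr A] = S A := by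
  simp [BooleanGrammar.str]

theorem str_inl (S : G.N → Language T) (a : T) : G.str S [Sum.inl a] = {[a]} := by
  simp [BooleanGrammar.str]

theorem finite_Sub : G.Sub.Finite := by
  haveI := G.finN
  have h1 : (⋃ A : G.N, ⋃ r ∈ {r | r ∈ G.rules A}, ⋃ α ∈ {α | α ∈ r.1 ++ r.2},
      {σ : List (T ⊕ G.N) | σ <:+ α}).Finite := by
    refine Set.finite_iUnion fun A => Set.Finite.biUnion (List.finite_toSet _) fun r _ =>
      Set.Finite.biUnion (List.finite_toSet _) fun α _ => ?_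
    have : {σ : List (T ⊕ G.N) | σ <:+ α} = {σ | σ ∈ α.tails} := by
      ext σ; simp
    rw [this]
    exact List.finite_toSet _
  have h2 : (⋃ A : G.N, ⋃ r ∈ {r | r ∈ G.rules A}, ⋃ α ∈ {α | α ∈ r.1 ++ r.2},
      {σ : List (T ⊕ G.N) | ∃ s ∈ α, σ = [s]}).Finite := by
    refine Set.finite_iUnion fun A => Set.Finite.biUnion (List.finite_toSet _) fun r _ =>
      Set.Finite.biUnion (List.finite_toSet _) fun α _ => ?_
    have : {σ : List (T ⊕ G.N) | ∃ s ∈ α, σ = [s]} = {σ | σ ∈ α.map fun s => [s]} := by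
      ext σ; simp [eq_comm]
    rw [this]
    exact List.finite_toSet _
  have h3 : (Set.range fun A : G.N => [(Sum.inr A : T ⊕ G.N)]).Finite := Set.finite_range _
  refine ((h1.union h2).union h3).subset ?_
  rintro σ (⟨A, r, hr, α, hα, h⟩ | ⟨s, rfl, A, r, hr, α, hα, h⟩ | ⟨A, rfl⟩)
  · left; left
    simp only [Set.mem_iUnion, Set.mem_setOf_eq]
    exact ⟨A, r, hr, α, hα, h⟩
  · left; right
    simp only [Set.mem_iUnion, Set.mem_setOf_eq]
    exact ⟨A, r, hr, α, hα, s, h, rfl⟩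
  · right
    exact ⟨A, rfl⟩

theorem single {κ : Type} (S : κ → G.N → Language T) (w w' : List T) (hw : 2 ≤ w.length)
    (h : ∀ i A, w ∈ S i A → w' ∈ S i A) (i : κ) (s : T ⊕ G.N) (hs : w ∈ G.str (S i) [s]) :
    w' ∈ G.str (S i) [s] := by
  rcases s with a | A
  · rw [str_inl] at hs
    have : w = [a] := hs
    rw [this] at hw
    simp at hw
  · rw [str_inr] at hs ⊢
    exact h i A hs

theorem suffix {κ : Type} (S : κ → G.N → Language T) (w w' : List T) (hw : G.Same S w w')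
    (h : ∀ i A, w ∈ S i A → w' ∈ S i A) (i : κ) (σ : List (T ⊕ G.N)) :
    (∃ A, ∃ r ∈ G.rules A, ∃ α ∈ r.1 ++ r.2, σ <:+ α) → w ∈ G.str (S i) σ →
      w' ∈ G.str (S i) σ := by
  induction σ with
  | nil =>
    intro _ h0
    rw [str_nil] at h0
    have h0' : w = [] := h0
    have := hw.1
    rw [h0'] at this
    simp at this
  | cons s τ ih =>
    rintro ⟨A, r, hr, α, hα, hs⟩ h0
    have hτ : τ <:+ α := (List.suffix_cons s τ).trans hs
    rw [str_cons] at h0 ⊢
    obtain ⟨u, hu, v, hv, huv⟩ := Language.mem_mul.1 h0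
    by_cases hu0 : u = []
    · subst hu0
      rw [List.nil_append] at huv
      subst huv
      exact Language.mem_mul.2 ⟨[], hu, w', ih ⟨A, r, hr, α, hα, hτ⟩ hv, by simp⟩
    by_cases hv0 : v = []
    · subst hv0
      rw [List.append_nil] at huv
      subst huv
      exact Language.mem_mul.2 ⟨w', single G S _ _ hw.1 h i s hu, [], hv, by simp⟩
    obtain ⟨u', v', hu', hv', huv', hval⟩ := hw.2 u v hu0 hv0 huv
    have hs1 : [s] ∈ G.Sub := Or.inr (Or.inl ⟨s, rfl, A, r, hr, α, hα, hs.subset (by simp)⟩)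
    have hs2 : τ ∈ G.Sub := Or.inl ⟨A, r, hr, α, hα, hτ⟩
    exact Language.mem_mul.2 ⟨u', (hval i _ hs1).1.1 hu, v', (hval i _ hs2).2.1 hv, huv'⟩

theorem sub {κ : Type} (S : κ → G.N → Language T) (w w' : List T) (hw : G.Same S w w')
    (h : ∀ i A, w ∈ S i A → w' ∈ S i A) (i : κ) (σ : List (T ⊕ G.N)) (hσ : σ ∈ G.Sub)
    (h0 : w ∈ G.str (S i) σ) : w' ∈ G.str (S i) σ := by
  rcases hσ with hσ | ⟨s, rfl, -⟩ | ⟨A, rfl⟩
  · exact suffix G S w w' hw h i σ hσ h0
  · exact single G S w w' hw.1 h i s h0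
  · exact single G S w w' hw.1 h i _ h0

/-- The values of a word. -/
def mu {κ : Type} (S : κ → G.N → Language T) (w : List T) : κ × G.Sub → Prop :=
  fun x => w ∈ G.str (S x.1) x.2.1

/-- The pairs of values. -/
def prs {X : Type} (μ : List T → X) (w : List T) : Set (X × X) :=
  {p | ∃ u v : List T, u ≠ [] ∧ v ≠ [] ∧ u ++ v = w ∧ p = (μ u, μ v)}

theorem same {κ : Type} (S : κ → G.N → Language T) (w w' : List T) (hw : 2 ≤ w.length)
    (h : prs (mu G S) w ⊆ prs (mu G S) w') : G.Same S w w' := by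
  refine ⟨hw, fun u v hu hv huv => ?_⟩
  obtain ⟨u', v', hu', hv', huv', hp⟩ := h ⟨u, v, hu, hv, huv, rfl⟩
  refine ⟨u', v', hu', hv', huv', fun i σ hσ => ?_⟩
  have h1 := congrFun (congrArg Prod.fst hp) (i, ⟨σ, hσ⟩)
  have h2 := congrFun (congrArg Prod.snd hp) (i, ⟨σ, hσ⟩)
  exact ⟨iff_of_eq h1, iff_of_eq h2⟩

end

theorem thm : G_STR := by
  intro T G κ _ S hS i A
  haveI : Finite G.Sub := (finite_Sub G).to_subtype
  classical
  refine ⟨κ × G.Sub → Prop, inferInstance, mu G S,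
    fun P => if h : ∃ w : List T, 2 ≤ w.length ∧ prs (mu G S) w = P then mu G S h.choose
      else fun _ => True,
    {x | x (i, ⟨[Sum.inr A], Or.inr (Or.inr ⟨A, rfl⟩)⟩)}, ?_, ?_⟩
  · intro w hw
    have hex : ∃ w' : List T, 2 ≤ w'.length ∧ prs (mu G S) w' = prs (mu G S) w := ⟨w, hw, rfl⟩
    show mu G S w = if h : ∃ w' : List T, 2 ≤ w'.length ∧ prs (mu G S) w' = prs (mu G S) w then
      mu G S h.choose else fun _ => True
    rw [dif_pos hex]
    obtain ⟨h1, h2⟩ := hex.choose_spec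
    generalize hex.choose = w' at h1 h2 ⊢
    have s1 : G.Same S w w' := same G S w w' hw h2.ge
    have s2 : G.Same S w' w := same G S w' w h1 h2.le
    have hh := hS w w' s1 s2
    funext x
    obtain ⟨j, σ, hσ⟩ := x
    exact propext ⟨sub G S w w' s1 (fun i A => (hh i A).1) j σ hσ,
      sub G S w' w s2 (fun i A => (hh i A).2) j σ hσ⟩
  · intro w _
    show w ∈ S i A ↔ w ∈ G.str (S i) [Sum.inr A]
    rw [str_inr]

end Pool.Agent.Helper7.BG.PkSTR
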